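import Pool.Agent.N848.OL.Stm

set_option autoImplicit false

/-!
# Units modulo fifth powers in a totally real cubic field (OL/EXG)
-/

namespace Pool.Agent.N707.OL

open NumberField NumberField.Units NumberField.InfinitePlace Module

/-- a map to a set of twenty-five elements which separates the classes modulo fifth powers -/
theorem exists_T (k : Type) [Field k] [NumberField k] (h3 : finrank ℚ k = 3)
    (hr : IsTotallyReal k) : ∃ (C : Type) (_ : Fintype C) (T : (𝓞 k)ˣ → C), Fintype.card C = 25 ∧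
      ∀ x y, T x = T y → ∃ w : (𝓞 k)ˣ, x = y * w ^ 5 := by
  classical
  have hrank : rank k = 2 := by
    have h1 := IsTotallyReal.finrank (K := k)
    have h2 := card_eq_nrRealPlaces_add_nrComplexPlaces (K := k)
    have h4 := IsTotallyReal.nrComplexPlaces_eq_zero (K := k)
    unfold rank
    omega
  have hodd : Odd (finrank ℚ k) := by rw [h3]; decide
  choose g hg _ using fun x : (𝓞 k)ˣ => exist_unique_eq_mul_prod k x
  have htor : ∀ x, (((g x).1 : (𝓞 k)ˣ)) ^ 2 = 1 := by
    intro x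
    rcases torsion_eq_one_or_neg_one_of_odd_finrank hodd (g x).1 with h | h
    · rw [h, one_pow]
    · rw [h]
      simp
  refine ⟨Fin (rank k) → ZMod 5, inferInstance, fun x => fun i => ((g x).2 i : ZMod 5), ?_, ?_⟩
  · rw [Fintype.card_fun, ZMod.card, Fintype.card_fin, hrank]
    norm_num
  · intro x y hxy
    have h8 : ∀ i, ∃ m : ℤ, (g x).2 i = (g y).2 i + 5 * m := by
      intro i
      have h9 : ((g x).2 i : ZMod 5) = ((g y).2 i : ZMod 5) := congrFun hxy i
      rw [ZMod.intCast_eq_intCast_iff_dvd_sub] at h9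
      obtain ⟨m, hm⟩ := h9
      refine ⟨-m, ?_⟩
      push_cast at hm
      linarith
    choose m hm using h8
    have hp : (∏ i, fundSystem k i ^ (g x).2 i) =
        (∏ i, fundSystem k i ^ (g y).2 i) * (∏ i, fundSystem k i ^ m i) ^ 5 := by
      rw [← Finset.prod_pow, ← Finset.prod_mul_distrib]
      apply Finset.prod_congr rfl
      intro i _
      rw [hm i, zpow_add, mul_comm (5 : ℤ) (m i), zpow_mul]
      rfl
    obtain ⟨s, hs⟩ : ∃ s : (𝓞 k)ˣ, s = ((g x).1 : (𝓞 k)ˣ) := ⟨_, rfl⟩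
    obtain ⟨t, ht⟩ : ∃ t : (𝓞 k)ˣ, t = ((g y).1 : (𝓞 k)ˣ) := ⟨_, rfl⟩
    have hs2 : s ^ 2 = 1 := by rw [hs]; exact htor x
    have ht2 : t ^ 2 = 1 := by rw [ht]; exact htor y
    have h1 : x = s * ((∏ i, fundSystem k i ^ (g y).2 i) * (∏ i, fundSystem k i ^ m i) ^ 5) := by
      rw [← hp, hs]
      exact hg x
    have h2 : y = t * ∏ i, fundSystem k i ^ (g y).2 i := by
      rw [ht]
      exact hg y
    have hst : (s * t) ^ 5 = s * t := by
      have : (s * t) ^ 2 = 1 := by rw [mul_pow, hs2, ht2, one_mul]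
      calc (s * t) ^ 5 = ((s * t) ^ 2) ^ 2 * (s * t) := by rw [← pow_mul, ← pow_succ]
        _ = s * t := by rw [this, one_pow, one_mul]
    refine ⟨s * t * ∏ i, fundSystem k i ^ m i, ?_⟩
    rw [h2, mul_pow, hst]
    have h6 : t * (∏ i, fundSystem k i ^ (g y).2 i) * (s * t * (∏ i, fundSystem k i ^ m i) ^ 5) =
        t ^ 2 * (s * ((∏ i, fundSystem k i ^ (g y).2 i) *
          (∏ i, fundSystem k i ^ m i) ^ 5)) := by
      rw [pow_two]
      ac_rfl
    rw [h6, ht2, one_mul, ← h1]

theorem t_EXG : Pool.Agent.N848.OL.S_EXG := by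
  intro k _ _ h3 hr e he η
  classical
  obtain ⟨C, _, T, hC, hT⟩ := exists_T k h3 hr
  set P : (Fin 2 → Fin 5) → (𝓞 k)ˣ := fun a => ∏ i, e i ^ (a i : ℕ) with hP
  have hinj : Function.Injective (fun a => T (P a)) := by
    intro a b hab
    by_contra hne
    obtain ⟨w, hw⟩ := hT _ _ hab
    refine he (a - b) (sub_ne_zero.2 hne) ?_
    have h2 : ∀ i, ∃ n : ℕ, ((a - b) i : ℕ) + ((b i : Fin 5) : ℕ) = (a i : ℕ) + 5 * n := by
      intro i
      simp only [Pi.sub_apply]
      generalize a i = x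
      generalize b i = y
      have : ∀ x y : Fin 5, ((x - y : Fin 5) : ℕ) + (y : ℕ) =
          (x : ℕ) + 5 * ((((x - y : Fin 5) : ℕ) + (y : ℕ)) / 5) := by
        decide
      exact ⟨_, this x y⟩
    choose n hn using h2
    have h4 : P (a - b) * P b = P a * (∏ i, e i ^ n i) ^ 5 := by
      simp only [hP]
      rw [← Finset.prod_pow, ← Finset.prod_mul_distrib, ← Finset.prod_mul_distrib]
      apply Finset.prod_congr rfl
      intro i _
      rw [← pow_add, hn i, pow_add, mul_comm 5 (n i), pow_mul]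
    rw [hw, mul_assoc, mul_comm (P (a - b)), mul_right_inj, ← mul_pow] at h4
    exact ⟨_, h4⟩
  have hbij : Function.Bijective (fun a => T (P a)) := by
    rw [Fintype.bijective_iff_injective_and_card]
    refine ⟨hinj, ?_⟩
    rw [hC]
    simp
  obtain ⟨a, ha⟩ := hbij.2 (T η)
  obtain ⟨w, hw⟩ := hT η (P a) ha.symm
  exact ⟨a, w, hw⟩

end Pool.Agent.N707.OL
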